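import Mathlib

/-! Evaluation of alternating sums over permutations by a recursion on lists. -/

namespace Pool.Agent.Q137.OC

open Equiv

/-- value of a sign -/
def sv (b : Bool) : ℤ := if b then 1 else -1

/-- all ways of picking an element of a list, with sign and remaining list -/
def picks : List ℕ → List (Bool × ℕ × List ℕ)
  | [] => []
  | x :: xs => (true, x, xs) ::
      (List.range xs.length).map (fun k => (false, xs.getD k 0, xs.set k x))

/-- alternating sum over all orders of a vector of labels -/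
def S (n : ℕ) (a : Fin n → ℕ) (F : (Fin n → ℕ) → ℤ) : ℤ :=
  ∑ e : Perm (Fin n), (Perm.sign e : ℤ) * F (fun i => a (e i))

/-- the chain product along a list, reading two labels at a time -/
def G (T : ℕ → ℕ → ℕ → ℕ → ℤ) : ℕ → ℕ → List ℕ → ℤ
  | 0, _, _ => 1
  | m + 1, x, (y :: z :: l) => T m x y z * G T m z l
  | _ + 1, _, _ => 1

/-- recursion for the alternating sum of chain products -/
def E (T : ℕ → ℕ → ℕ → ℕ → ℤ) : ℕ → ℕ → List ℕ → ℤ
  | 0, _, _ => 1
  | m + 1, x, l => ((picks l).map fun t => ((picks t.2.2).map fun u =>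
      (sv t.1 * sv u.1) * (T m x t.2.1 u.2.1 * E T m u.2.1 u.2.2)).sum).sum

lemma S_step (n : ℕ) (a : Fin (n + 1) → ℕ) (F : (Fin (n + 1) → ℕ) → ℤ) :
    S (n + 1) a F = ∑ p : Fin (n + 1), sv (decide (p = 0)) *
      S n (fun i => a (swap 0 p i.succ)) (fun v => F (Fin.cons (a p) v)) := by
  unfold S
  rw [← Equiv.sum_comp (Perm.decomposeFin.symm), Fintype.sum_prod_type]
  refine Finset.sum_congr rfl fun p _ => ?_
  rw [Finset.mul_sum]
  refine Finset.sum_congr rfl fun e _ => ?_
  have h1 : ((Perm.sign (Perm.decomposeFin.symm (p, e)) : ℤˣ) : ℤ)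
      = sv (decide (p = 0)) * (Perm.sign e : ℤ) := by
    rw [Perm.decomposeFin.symm_sign]
    by_cases hp : p = 0 <;> simp [hp, sv]
  rw [h1, mul_assoc]
  congr 2
  congr 1
  funext i
  refine Fin.cases ?_ (fun j => ?_) i
  · simp
  · simp

lemma sum_range_list (n : ℕ) (g : ℕ → ℤ) :
    ((List.range n).map g).sum = ∑ k : Fin n, g k := by
  rw [Fin.sum_univ_eq_sum_range, Finset.sum_range]
  induction n with
  | zero => simp
  | succ n ih => rw [List.range_succ, List.map_append, List.sum_append, ih, Fin.sum_univ_castSucc]; simp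

lemma ofFn_swap {n : ℕ} (a : Fin (n + 1) → ℕ) (p : Fin n) :
    (List.ofFn fun i : Fin n => a i.succ).set p (a 0) =
      List.ofFn fun i : Fin n => a (swap 0 p.succ i.succ) := by
  apply List.ext_getElem
  · simp
  · intro k h1 h2
    rw [List.getElem_set]
    simp only [List.getElem_ofFn]
    by_cases h : (p : ℕ) = k
    · rw [if_pos h]
      subst h
      congr 1
      exact (swap_apply_right _ _).symm
    · rw [if_neg h]
      congr 1
      refine (swap_apply_of_ne_of_ne (Fin.succ_ne_zero _) ?_).symm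
      intro h3
      apply h
      have := Fin.succ_injective _ h3
      rw [← this]

lemma sum_picks {n : ℕ} (a : Fin (n + 1) → ℕ) (f : Bool → ℕ → List ℕ → ℤ) :
    ((picks (List.ofFn a)).map fun t => f t.1 t.2.1 t.2.2).sum =
      ∑ p : Fin (n + 1), f (decide (p = 0)) (a p) (List.ofFn fun i => a (swap 0 p i.succ)) := by
  rw [List.ofFn_succ, picks, Fin.sum_univ_succ]
  simp only [List.map_cons, List.sum_cons]
  congr 1
  rw [List.map_map, List.length_ofFn, sum_range_list]
  refine Finset.sum_congr rfl fun k _ => ?_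
  simp only [Function.comp]
  rw [ofFn_swap]
  congr 1
  simp

/-- evaluation of the alternating sum of chain products -/
lemma S_G (T : ℕ → ℕ → ℕ → ℕ → ℤ) : ∀ (m : ℕ) (x : ℕ) (a : Fin (2 * m) → ℕ),
    S (2 * m) a (fun v => G T m x (List.ofFn v)) = E T m x (List.ofFn a)
  | 0, x, a => by simp [S, G, E]
  | m + 1, x, a => by
    have ih := S_G T m
    show S (2 * m + 1 + 1) a (fun v => G T (m + 1) x (List.ofFn v)) = _
    rw [S_step, E]
    have h0 := sum_picks (n := 2 * m + 1) a (fun b y l => ((picks l).map fun u =>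
      (sv b * sv u.1) * (T m x y u.2.1 * E T m u.2.1 u.2.2)).sum)
    refine Eq.trans ?_ h0.symm
    refine Finset.sum_congr rfl fun p _ => ?_
    rw [S_step]
    have h1 := sum_picks (n := 2 * m) (fun i => a (swap 0 p i.succ)) (fun b y l =>
      (sv (decide (p = 0)) * sv b) * (T m x (a p) y * E T m y l))
    refine Eq.trans ?_ h1.symm
    rw [Finset.mul_sum]
    refine Finset.sum_congr rfl fun q _ => ?_
    rw [← ih]
    unfold S
    simp only [Finset.mul_sum]
    refine Finset.sum_congr rfl fun e _ => ?_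
    rw [List.ofFn_succ, List.ofFn_succ]
    simp only [Fin.cons_zero, Fin.cons_succ, G]
    ring

/-- the whole sum over the permutations of `2 m + 1` labels -/
lemma S_full (T : ℕ → ℕ → ℕ → ℕ → ℤ) (m : ℕ) (a : Fin (2 * m + 1) → ℕ) :
    S (2 * m + 1) a (fun v => G T m (v 0) (List.ofFn fun i : Fin (2 * m) => v i.succ)) =
      ((picks (List.ofFn a)).map fun t => sv t.1 * E T m t.2.1 t.2.2).sum := by
  rw [S_step, sum_picks (n := 2 * m) a (fun b y l => sv b * E T m y l)]
  refine Finset.sum_congr rfl fun p _ => ?_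
  rw [← S_G]
  simp


/-! ### fast evaluation -/

/-- sum over the positions of a list, replacing the picked entry by `x` -/
def sp (x : ℕ) (k : ℕ → List ℕ → ℕ) : List ℕ → ℕ
  | [] => 0
  | y :: ys => Nat.add (k y (x :: ys)) (sp x (fun z r => k z (y :: r)) ys)

/-- sum over picks, with a sign -/
def spk (k : Bool → ℕ → List ℕ → ℕ) : List ℕ → ℕ
  | [] => 0
  | x :: xs => Nat.add (k true x xs) (sp x (k false) xs)

lemma sp_eq (x : ℕ) : ∀ (ys : List ℕ) (k : ℕ → List ℕ → ℕ),
    sp x k ys = ((List.range ys.length).map fun j => k (ys.getD j 0) (ys.set j x)).sum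
  | [], k => by simp [sp]
  | y :: ys, k => by
    rw [sp, sp_eq x ys, List.length_cons, List.range_succ_eq_map, List.map_cons, List.sum_cons,
      List.map_map]
    rfl

lemma spk_eq (k : Bool → ℕ → List ℕ → ℕ) (l : List ℕ) :
    spk k l = ((picks l).map fun t => k t.1 t.2.1 t.2.2).sum := by
  cases l with
  | nil => simp [spk, picks]
  | cons x xs =>
    rw [spk, picks, sp_eq, List.map_cons, List.sum_cons, List.map_map]
    rfl

/-- table lookup -/
def tb (N x y z : ℕ) : ℕ :=
  Nat.mod (Nat.land (Nat.shiftRight N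
    (Nat.mul 2 (Nat.add (Nat.mul 9 (Nat.add (Nat.mul 9 x) y)) z))) 3) 3

lemma tb_le (N x y z : ℕ) : tb N x y z ≤ 2 :=
  Nat.le_of_lt_succ (Nat.mod_lt _ (by norm_num))

/-- the value table of a list of codes -/
def TT (N : ℕ → ℕ) (m x y z : ℕ) : ℤ := (tb (N m) x y z : ℤ) - 1

/-- base level -/
def C1 (N : ℕ) (b : Bool) (x : ℕ) : List ℕ → ℕ
  | y :: z :: _ => bif b then Nat.sub (Nat.add 2 (tb N x y z)) (tb N x z y) else
      Nat.sub (Nat.add 2 (tb N x z y)) (tb N x y z)
  | _ => 0

/-- recursion step -/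
def Cs (N f : ℕ) (nx : Bool → ℕ → List ℕ → ℕ) (b : Bool) (x : ℕ) (l : List ℕ) : ℕ :=
  spk (fun s y l1 => spk (fun t z l2 =>
      match tb N x y z with
      | 0 => nx (!(xor b (xor s t))) z l2
      | 1 => f
      | _ => nx (xor b (xor s t)) z l2) l1) l

lemma C1_eq (N : ℕ → ℕ) (b : Bool) (x : ℕ) (l : List ℕ) (hl : l.length = 2) :
    (C1 (N 0) b x l : ℤ) = 2 + sv b * E (TT N) 1 x l := by
  match l, hl with
  | [y, z], _ =>
    have h1 := tb_le (N 0) x y z
    have h2 := tb_le (N 0) x z y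
    have hE : E (TT N) 1 x [y, z] = (tb (N 0) x y z : ℤ) - tb (N 0) x z y := by
      simp [E, picks, TT, sv]
    rw [hE]
    cases b
    · show ((Nat.sub (Nat.add 2 (tb (N 0) x z y)) (tb (N 0) x y z) : ℕ) : ℤ) = _
      simp only [Nat.sub_eq, Nat.add_eq, sv]
      push_cast [Nat.cast_sub (show tb (N 0) x y z ≤ 2 + tb (N 0) x z y by omega)]
      simp; ring
    · show ((Nat.sub (Nat.add 2 (tb (N 0) x y z)) (tb (N 0) x z y) : ℕ) : ℤ) = _
      simp only [Nat.sub_eq, Nat.add_eq, sv]
      push_cast [Nat.cast_sub (show tb (N 0) x z y ≤ 2 + tb (N 0) x y z by omega)]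
      simp; ring

lemma picks_length (l : List ℕ) : (picks l).length = l.length := by
  cases l <;> simp [picks]

lemma length_of_mem_picks {l : List ℕ} {t : Bool × ℕ × List ℕ} (h : t ∈ picks l) :
    t.2.2.length + 1 = l.length := by
  cases l with
  | nil => simp [picks] at h
  | cons x xs =>
    simp only [picks, List.mem_cons, List.mem_map] at h
    rcases h with rfl | ⟨j, _, rfl⟩
    · simp
    · simp

lemma sum_map_picks (l : List ℕ) (c : ℤ) (F : Bool × ℕ × List ℕ → ℕ)
    (H : Bool × ℕ × List ℕ → ℤ) (h : ∀ t ∈ picks l, (F t : ℤ) = c + H t) :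
    ((((picks l).map F).sum : ℕ) : ℤ) = l.length * c + ((picks l).map H).sum := by
  rw [← picks_length l]
  generalize picks l = q at h ⊢
  induction q with
  | nil => simp
  | cons a q ih =>
    have h1 := h a (by simp)
    have h2 := ih (fun t ht => h t (by simp [ht]))
    simp only [List.map_cons, List.sum_cons, List.length_cons, Nat.cast_add, h1, h2]
    push_cast
    ring

lemma sv_xor (a b : Bool) : sv (xor a b) = - (sv a * sv b) := by
  cases a <;> cases b <;> simp [sv]

lemma Cs_eq (N : ℕ → ℕ) (m f : ℕ) (nx : Bool → ℕ → List ℕ → ℕ)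
    (h : ∀ b z l, l.length = 2 * m → (nx b z l : ℤ) = f + sv b * E (TT N) m z l)
    (b : Bool) (x : ℕ) (l : List ℕ) (hl : l.length = 2 * m + 2) :
    (Cs (N m) f nx b x l : ℤ) =
      (2 * m + 2) * ((2 * m + 1) * f) + sv b * E (TT N) (m + 1) x l := by
  rw [Cs, spk_eq, E]
  rw [sum_map_picks l ((2 * m + 1) * f) _ (fun t => sv b * (((picks t.2.2).map fun u =>
      (sv t.1 * sv u.1) * (TT N m x t.2.1 u.2.1 * E (TT N) m u.2.1 u.2.2)).sum))]
  · rw [hl]
    simp only [List.sum_map_mul_left]
    push_cast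
    ring
  intro t ht
  have hlt := length_of_mem_picks ht
  rw [spk_eq]
  rw [sum_map_picks t.2.2 f _ (fun u => sv b *
      ((sv t.1 * sv u.1) * (TT N m x t.2.1 u.2.1 * E (TT N) m u.2.1 u.2.2)))]
  · rw [List.sum_map_mul_left]
    have : t.2.2.length = 2 * m + 1 := by omega
    rw [this]; push_cast; ring
  intro u hu
  have hlu := length_of_mem_picks hu
  have hlu' : u.2.2.length = 2 * m := by omega
  have h3 := tb_le (N m) x t.2.1 u.2.1
  have hT : TT N m x t.2.1 u.2.1 = (tb (N m) x t.2.1 u.2.1 : ℤ) - 1 := rfl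
  rw [hT]
  generalize tb (N m) x t.2.1 u.2.1 = c at h3
  interval_cases c
  · show ((nx (!(xor b (xor t.1 u.1))) u.2.1 u.2.2 : ℕ) : ℤ) = _
    rw [h _ _ _ hlu']
    cases b <;> cases t.1 <;> cases u.1 <;> simp [sv]
  · show ((f : ℕ) : ℤ) = _
    simp
  · show ((nx (xor b (xor t.1 u.1)) u.2.1 u.2.2 : ℕ) : ℤ) = _
    rw [h _ _ _ hlu']
    cases b <;> cases t.1 <;> cases u.1 <;> simp [sv]

end Pool.Agent.Q137.OC
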