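import Mathlib

/-! The alternated product of orientation cocycles of the circle. -/

namespace Pool.Agent.Q137.OC

open Equiv

/-- `a, b, c` are distinct points of the circle in counterclockwise cyclic order: going
counterclockwise from `a`, one meets `b` and then `c` before coming back to `a`. -/
def CCW (a b c : Circle) : Prop :=
  ∃ s t : ℝ, 0 < s ∧ s < t ∧ t < 2 * Real.pi ∧ b = a * Circle.exp s ∧ c = a * Circle.exp t

open Classical in
/-- The orientation cocycle: `1` on triples of distinct points in counterclockwise cyclic order,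
`-1` on triples of distinct points in clockwise cyclic order, and `0` otherwise. -/
noncomputable def Or (a b c : Circle) : ℝ :=
  if CCW a b c then 1 else if CCW a c b then -1 else 0

/-- `π ^ n` times the alternation of the cup product of the pullbacks of `Or` under the `n`
coordinate projections of the torus. -/
noncomputable def Theta (n : ℕ) (θ : Fin (2 * n + 1) → Fin n → Circle) : ℝ :=
  Real.pi ^ n / (2 * n + 1).factorial * ∑ σ : Perm (Fin (2 * n + 1)), ((Perm.sign σ : ℤ) : ℝ) *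
    ∏ i : Fin n, Or (θ (σ ⟨2 * i, by omega⟩) i) (θ (σ ⟨2 * i + 1, by omega⟩) i)
      (θ (σ ⟨2 * i + 2, by omega⟩) i)

/-- The configuration `(θ*_j)^k = ζ ^ (k j)`, `ζ = exp (2 π i / (2 n + 1))`; the coordinate with
index `k : Fin n` is the `(k + 1)`-st one. -/
noncomputable def thetaStar (n : ℕ) (j : Fin (2 * n + 1)) (k : Fin n) : Circle :=
  Circle.exp (2 * Real.pi / (2 * n + 1)) ^ (((k : ℕ) + 1) * (j : ℕ))

lemma abs_Or_le (a b c : Circle) : |Or a b c| ≤ 1 := by
  unfold Or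
  split_ifs <;> simp

lemma abs_Theta_le (n : ℕ) (θ : Fin (2 * n + 1) → Fin n → Circle) :
    |Theta n θ| ≤ Real.pi ^ n := by
  unfold Theta
  rw [abs_mul, abs_of_pos (by positivity)]
  have h : |∑ σ : Perm (Fin (2 * n + 1)), ((Perm.sign σ : ℤ) : ℝ) *
    ∏ i : Fin n, Or (θ (σ ⟨2 * i, by omega⟩) i) (θ (σ ⟨2 * i + 1, by omega⟩) i)
      (θ (σ ⟨2 * i + 2, by omega⟩) i)| ≤ (2 * n + 1).factorial := by
    refine (Finset.abs_sum_le_sum_abs _ _).trans ?_
    have h1 : ∀ σ : Perm (Fin (2 * n + 1)), |((Perm.sign σ : ℤ) : ℝ) *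
      ∏ i : Fin n, Or (θ (σ ⟨2 * i, by omega⟩) i) (θ (σ ⟨2 * i + 1, by omega⟩) i)
        (θ (σ ⟨2 * i + 2, by omega⟩) i)| ≤ 1 := by
      intro σ
      rw [abs_mul, Finset.abs_prod]
      have h2 : |((Perm.sign σ : ℤ) : ℝ)| = 1 := by
        rcases Int.units_eq_one_or (Perm.sign σ) with h | h <;> simp [h]
      rw [h2, one_mul]
      exact Finset.prod_le_one (fun i _ => abs_nonneg _) (fun i _ => abs_Or_le _ _ _)
    refine (Finset.sum_le_sum fun σ _ => h1 σ).trans ?_
    simp [Fintype.card_perm]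
  calc Real.pi ^ n / (2 * n + 1).factorial * _
      ≤ Real.pi ^ n / (2 * n + 1).factorial * (2 * n + 1).factorial := by gcongr
    _ = Real.pi ^ n := by field_simp

lemma bddAbove_Theta (n : ℕ) : BddAbove (Set.range fun θ => |Theta n θ|) :=
  ⟨Real.pi ^ n, by rintro _ ⟨θ, rfl⟩; exact abs_Theta_le n θ⟩

/-- orientation of three points given by a base angle and two increments in `[0, 2 π)` -/
lemma CCW_iff (α s t : ℝ) (hs : 0 ≤ s) (hs' : s < 2 * Real.pi) (ht : 0 ≤ t)
    (ht' : t < 2 * Real.pi) :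
    CCW (Circle.exp α) (Circle.exp (α + s)) (Circle.exp (α + t)) ↔ 0 < s ∧ s < t := by
  constructor
  · rintro ⟨s1, t1, h1, h2, h3, h4, h5⟩
    rw [← Circle.exp_add, Circle.exp_eq_exp] at h4 h5
    obtain ⟨m, hm⟩ := h4
    obtain ⟨k, hk⟩ := h5
    have hpi := Real.pi_pos
    have hs1 : s = s1 + m * (2 * Real.pi) := by linarith
    have ht1 : t = t1 + k * (2 * Real.pi) := by linarith
    have hm0 : m = 0 := by
      have a1 : (m : ℝ) * (2 * Real.pi) < 1 * (2 * Real.pi) := by linarith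
      have a2 : (-1 : ℝ) * (2 * Real.pi) < m * (2 * Real.pi) := by linarith
      have b1 := lt_of_mul_lt_mul_right a1 (by positivity)
      have b2 := lt_of_mul_lt_mul_right a2 (by positivity)
      have c1 : m < 1 := by exact_mod_cast b1
      have c2 : -1 < m := by exact_mod_cast b2
      omega
    have hk0 : k = 0 := by
      have a1 : (k : ℝ) * (2 * Real.pi) < 1 * (2 * Real.pi) := by linarith
      have a2 : (-1 : ℝ) * (2 * Real.pi) < k * (2 * Real.pi) := by linarith
      have b1 := lt_of_mul_lt_mul_right a1 (by positivity)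
      have b2 := lt_of_mul_lt_mul_right a2 (by positivity)
      have c1 : k < 1 := by exact_mod_cast b1
      have c2 : -1 < k := by exact_mod_cast b2
      omega
    subst hm0; subst hk0
    simp at hs1 ht1
    subst hs1; subst ht1
    exact ⟨h1, h2⟩
  · rintro ⟨h1, h2⟩
    exact ⟨s, t, h1, h2, ht', Circle.exp_add _ _, Circle.exp_add _ _⟩

/-- integer orientation of three ninth roots of unity -/
def o9 (p q r : ℕ) : ℤ :=
  if 0 < (q + 9 - p) % 9 ∧ (q + 9 - p) % 9 < (r + 9 - p) % 9 then 1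
  else if 0 < (r + 9 - p) % 9 ∧ (r + 9 - p) % 9 < (q + 9 - p) % 9 then -1 else 0

/-- ninth roots of unity -/
noncomputable def pt (p : ℕ) : Circle := Circle.exp (2 * Real.pi / 9 * p)

lemma pt_mod (p : ℕ) : pt (p % 9) = pt p := by
  unfold pt
  rw [Circle.exp_eq_exp]
  refine ⟨-((p / 9 : ℕ) : ℤ), ?_⟩
  have h : ((p % 9 : ℕ) : ℝ) + 9 * ((p / 9 : ℕ) : ℝ) = p := by
    exact_mod_cast Nat.mod_add_div p 9
  generalize p / 9 = d at h ⊢
  rw [← h]; push_cast; ring

lemma pt_add (p q : ℕ) (hp : p < 9) : pt q = Circle.exp (2 * Real.pi / 9 * p +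
    2 * Real.pi / 9 * ((q + 9 - p) % 9 : ℕ)) := by
  rw [← mul_add, ← Nat.cast_add]
  change pt q = pt _
  rw [← pt_mod, ← pt_mod (p + _)]
  congr 1
  omega

lemma Or_pt (p q r : ℕ) (hp : p < 9) : Or (pt p) (pt q) (pt r) = o9 p q r := by
  have hpi := Real.pi_pos
  have key : ∀ k : ℕ, 0 ≤ 2 * Real.pi / 9 * ((k % 9 : ℕ) : ℝ) ∧
      2 * Real.pi / 9 * ((k % 9 : ℕ) : ℝ) < 2 * Real.pi := by
    intro k
    refine ⟨by positivity, ?_⟩
    have : ((k % 9 : ℕ) : ℝ) < 9 := by exact_mod_cast Nat.mod_lt _ (by norm_num)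
    calc 2 * Real.pi / 9 * ((k % 9 : ℕ) : ℝ) < 2 * Real.pi / 9 * 9 := by gcongr
      _ = 2 * Real.pi := by ring
  have hc : ∀ q r : ℕ, CCW (pt p) (pt q) (pt r) ↔
      (0 < (q + 9 - p) % 9 ∧ (q + 9 - p) % 9 < (r + 9 - p) % 9) := by
    intro q r
    rw [pt_add p q hp, pt_add p r hp]
    unfold pt
    rw [CCW_iff _ _ _ (key _).1 (key _).2 (key _).1 (key _).2]
    have h9 : 0 < 2 * Real.pi / 9 := by positivity
    constructor
    · rintro ⟨h1, h2⟩
      refine ⟨?_, ?_⟩
      · exact_mod_cast (mul_pos_iff_of_pos_left h9).1 h1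
      · exact_mod_cast lt_of_mul_lt_mul_left h2 h9.le
    · rintro ⟨h1, h2⟩
      refine ⟨by positivity, ?_⟩
      have h3 : ((((q + 9 - p) % 9 : ℕ)) : ℝ) < (((r + 9 - p) % 9 : ℕ) : ℝ) := by exact_mod_cast h2
      exact mul_lt_mul_of_pos_left h3 h9
  unfold Or
  simp only [hc, o9]
  split_ifs <;> simp

end Pool.Agent.Q137.OC
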