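import Pool.Agent.Q137.OC.Comp
import Pool.Agent.Q137.OC.Defs

/-! The value of `Theta` at two configurations. -/

namespace Pool.Agent.Q137.OC

open Equiv

lemma Theta4_eq (N : ℕ → ℕ) (P : ℕ → ℕ → ℕ) (hP : ∀ i < 4, ∀ x < 9, P i x < 9)
    (hN : ∀ i < 4, ∀ x < 9, ∀ y < 9, ∀ z < 9, TT N (3 - i) x y z = o9 (P i x) (P i y) (P i z))
    (θ : Fin (2 * 4 + 1) → Fin 4 → Circle) (hθ : ∀ j k, θ j k = pt (P k j)) (w : ℤ)
    (hw : ∀ T : ℕ → ℕ → ℕ → ℕ → ℤ, T = TT N →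
      ((picks [0, 1, 2, 3, 4, 5, 6, 7, 8]).map fun t => sv t.1 * E T 4 t.2.1 t.2.2).sum = w) :
    Theta 4 θ = Real.pi ^ 4 / 362880 * w := by
  have h1 := S_full (TT N) 4 (fun i => (i : ℕ))
  have h2 : List.ofFn (fun i : Fin (2 * 4 + 1) => (i : ℕ)) = [0, 1, 2, 3, 4, 5, 6, 7, 8] := by
    rfl
  rw [h2] at h1
  have h3 := hw _ rfl
  generalize ((picks [0, 1, 2, 3, 4, 5, 6, 7, 8]).map fun t => sv t.1 * E (TT N) 4 t.2.1 t.2.2).sum
    = W at h1 h3
  subst h3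
  rw [← h1]
  unfold Theta S
  have hf : ((2 * 4 + 1).factorial : ℝ) = 362880 := by norm_num [Nat.factorial]
  rw [hf]
  congr 1
  push_cast
  refine Finset.sum_congr rfl fun e _ => ?_
  congr 1
  rw [Fin.prod_univ_four]
  simp only [hθ]
  have lt : ∀ k : Fin (2 * 4 + 1), ((e k : Fin (2 * 4 + 1)) : ℕ) < 9 := fun k => (e k).2
  have hO : ∀ (i : ℕ) (hi : i < 4) (a b c : Fin (2 * 4 + 1)),
      Or (pt (P i (e a))) (pt (P i (e b))) (pt (P i (e c))) =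
        ((TT N (3 - i) (e a) (e b) (e c) : ℤ) : ℝ) := by
    intro i hi a b c
    rw [Or_pt _ _ _ (hP i hi _ (lt a)), hN i hi _ (lt a) _ (lt b) _ (lt c)]
  have e0 := hO 0 (by norm_num) 0 1 2
  have e1 := hO 1 (by norm_num) 2 3 4
  have e2 := hO 2 (by norm_num) 4 5 6
  have e3 := hO 3 (by norm_num) 6 7 8
  refine Eq.trans (congrArg₂ (· * ·) (congrArg₂ (· * ·) (congrArg₂ (· * ·) e0 e1) e2) e3) ?_
  have hG : G (TT N) 4 (e 0) (List.ofFn fun i : Fin (2 * 4) => (e i.succ : ℕ)) =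
      TT N 3 (e 0) (e 1) (e 2) * (TT N 2 (e 2) (e 3) (e 4) * (TT N 1 (e 4) (e 5) (e 6) *
      (TT N 0 (e 6) (e 7) (e 8) * 1))) := by
    rfl
  rw [hG]
  push_cast
  ring

/-- positions of the standard configuration -/
def Ps (i x : ℕ) : ℕ := ((i + 1) * x) % 9

/-- positions of the second configuration -/
def Pb (i x : ℕ) : ℕ := match i with
  | 0 => x
  | 1 => [2, 0, 6, 4, 1, 8, 3, 7, 5].getD x 0
  | 2 => [2, 6, 3, 7, 8, 1, 4, 5, 0].getD x 0
  | _ => [8, 5, 2, 7, 1, 6, 4, 0, 3].getD x 0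

set_option maxRecDepth 100000 in
lemma hNs : ∀ i < 4, ∀ x < 9, ∀ y < 9, ∀ z < 9, TT Ns (3 - i) x y z =
    o9 (Ps i x) (Ps i y) (Ps i z) := by decide +kernel

set_option maxRecDepth 100000 in
lemma hNb : ∀ i < 4, ∀ x < 9, ∀ y < 9, ∀ z < 9, TT Nb (3 - i) x y z =
    o9 (Pb i x) (Pb i y) (Pb i z) := by decide +kernel

lemma hPs : ∀ i < 4, ∀ x < 9, Ps i x < 9 := by decide +kernel

lemma hPb : ∀ i < 4, ∀ x < 9, Pb i x < 9 := by decide +kernel

lemma thetaStar_eq (j : Fin (2 * 4 + 1)) (k : Fin 4) : thetaStar 4 j k = pt (Ps k j) := by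
  unfold thetaStar Ps
  rw [pt_mod]
  unfold pt
  rw [← Circle.exp_natCast_mul]
  congr 1
  push_cast
  ring

theorem Theta_star : Theta 4 (thetaStar 4) = Real.pi ^ 4 / 28 := by
  rw [Theta4_eq Ns Ps hPs hNs (thetaStar 4) thetaStar_eq 12960
    (fun T hT => by subst hT; exact total_s)]
  push_cast; ring

theorem Theta_b : Theta 4 (fun j k => pt (Pb k j)) = Real.pi ^ 4 / 15 := by
  rw [Theta4_eq Nb Pb hPb hNb (fun j k => pt (Pb k j)) (fun _ _ => rfl) 24192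
    (fun T hT => by subst hT; exact total_b)]
  push_cast; ring

/-- the standard configuration is not a maximiser for `n = 4` -/
theorem star_lt : |Theta 4 (thetaStar 4)| < ⨆ θ, |Theta 4 θ| := by
  refine lt_of_lt_of_le ?_ (le_ciSup (bddAbove_Theta 4) (fun j k => pt (Pb k j)))
  rw [Theta_star, Theta_b]
  have := Real.pi_pos
  rw [abs_of_pos (by positivity), abs_of_pos (by positivity)]
  have h4 : 0 < Real.pi ^ 4 := by positivity
  linarith

end Pool.Agent.Q137.OC
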